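import Mathlib

set_option autoImplicit false

namespace Pool.Agent.H15.Penrose.Bundled

open Polynomial

variable {α β : Type}

/-- A binary matroid `(E, C)`: a finite ground set `E` (inside an ambient type `α`) and a linear
subspace `C` of `GF(2)^E`.  Subsets of `E` are identified with their characteristic vectors
`α → ZMod 2`, which vanish outside `E`. -/
structure BinMatroid (α : Type) where
  E : Finset α
  C : Submodule (ZMod 2) (α → ZMod 2)
  supp : ∀ c ∈ C, ∀ e, e ∉ E → c e = 0

/-- The linear map `c ↦ c ∩ A` (keep the coordinates in `A`, replace the others by `0`). -/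
def inter [DecidableEq α] (A : Finset α) : (α → ZMod 2) →ₗ[ZMod 2] (α → ZMod 2) where
  toFun c := fun e => if e ∈ A then c e else 0
  map_add' c d := by
    funext e
    by_cases h : e ∈ A <;> simp [h]
  map_smul' a c := by
    funext e
    by_cases h : e ∈ A <;> simp [h]

namespace BinMatroid

/-- The dual matroid: its cycles are the cocycles of `M`, that is the subsets `k` of the ground set
with `|c ∩ k|` even for all cycles `c`. -/
def dual (M : BinMatroid α) : BinMatroid α where
  E := M.E
  C :=
    { carrier := {k | (∀ e, e ∉ M.E → k e = 0) ∧ ∀ c ∈ M.C, ∑ e ∈ M.E, c e * k e = 0}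
      add_mem' := by
        rintro a b ⟨ha, ha'⟩ ⟨hb, hb'⟩
        refine ⟨fun e he => by simp [ha e he, hb e he], fun c hc => ?_⟩
        simp only [Pi.add_apply, mul_add, Finset.sum_add_distrib, ha' c hc, hb' c hc, add_zero]
      zero_mem' := ⟨fun e _ => rfl, fun c _ => by simp⟩
      smul_mem' := by
        rintro r a ⟨ha, ha'⟩
        refine ⟨fun e he => by simp [ha e he], fun c hc => ?_⟩
        have : ∀ e, c e * (r • a) e = r * (c e * a e) := fun e => by
          simp only [Pi.smul_apply, smul_eq_mul]; ring
        simp only [this, ← Finset.mul_sum, ha' c hc, mul_zero] }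
  supp k hk := hk.1

/-- `M` is bridgeless: every element of the ground set lies in some cycle. -/
def Bridgeless (M : BinMatroid α) : Prop := ∀ e ∈ M.E, ∃ c ∈ M.C, c e ≠ 0

/-- The reduction `M|A`: the cycles of `M` contained in `A`. -/
def reduction (M : BinMatroid α) (A : Finset α) : BinMatroid α where
  E := A
  C :=
    { carrier := {c | c ∈ M.C ∧ ∀ e, e ∉ A → c e = 0}
      add_mem' := by
        rintro a b ⟨ha, ha'⟩ ⟨hb, hb'⟩
        exact ⟨M.C.add_mem ha hb, fun e he => by simp [ha' e he, hb' e he]⟩
      zero_mem' := ⟨M.C.zero_mem, fun e _ => rfl⟩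
      smul_mem' := by
        rintro r a ⟨ha, ha'⟩
        exact ⟨M.C.smul_mem r ha, fun e he => by simp [ha' e he]⟩ }
  supp c hc := hc.2

/-- The contraction `M·A`: the sets `c ∩ A`, for `c` a cycle of `M`. -/
def contraction [DecidableEq α] (M : BinMatroid α) (A : Finset α) : BinMatroid α where
  E := A
  C := M.C.map (inter A)
  supp := by
    rintro c hc e he
    obtain ⟨d, -, rfl⟩ := Submodule.mem_map.1 hc
    simp [inter, he]

/-- `IsMinor M N`: the matroid `N` is obtained from `M` by finitely many reductions and
contractions (to subsets of the current ground set). -/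
inductive IsMinor [DecidableEq α] (M : BinMatroid α) : BinMatroid α → Prop
  | refl : IsMinor M M
  | reduction {N : BinMatroid α} {A : Finset α} :
      IsMinor M N → A ⊆ N.E → IsMinor M (N.reduction A)
  | contraction {N : BinMatroid α} {A : Finset α} :
      IsMinor M N → A ⊆ N.E → IsMinor M (N.contraction A)

/-- The bicycle space `B_M(A)`: the cycles `c` such that `c ∩ A` is a cocycle. -/
def bicycles [DecidableEq α] (M : BinMatroid α) (A : Finset α) :
    Submodule (ZMod 2) (α → ZMod 2) :=
  M.C ⊓ M.dual.C.comap (inter A)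

/-- The Penrose polynomial `∑_{A ⊆ E} (-1)^|A| X^(dim B_M(A))`. -/
noncomputable def penrose [DecidableEq α] (M : BinMatroid α) : ℤ[X] :=
  ∑ A ∈ M.E.powerset, (-1 : ℤ[X]) ^ A.card * X ^ Module.finrank (ZMod 2) (M.bicycles A)

/-- The Penrose polynomial of `M` has alternating coefficients: with `r = dim C`, the number
`(-1)^(r-i) a_i` is positive for all `0 ≤ i ≤ r`. -/
def Alternating [DecidableEq α] (M : BinMatroid α) : Prop :=
  ∀ i : ℕ, i ≤ Module.finrank (ZMod 2) M.C →
    0 < (-1 : ℤ) ^ (Module.finrank (ZMod 2) M.C - i) * M.penrose.coeff i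

/-- `M` is a minimal non-alternating bridgeless matroid: `M` is bridgeless, its Penrose
polynomial is not alternating, and the Penrose polynomial of every bridgeless minor of `M` on
a smaller ground set is alternating. -/
def MinimalNonAlternating [DecidableEq α] (M : BinMatroid α) : Prop :=
  M.Bridgeless ∧ ¬ M.Alternating ∧
    ∀ N : BinMatroid α, IsMinor M N → N.E ⊂ M.E → N.Bridgeless → N.Alternating

/-- Isomorphism of binary matroids: a bijection `f` between the ground sets such that a subset `c`
of the ground set of `N` is a cycle of `N` if and only if its preimage is a cycle of `M`. -/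
def Iso [DecidableEq α] (M : BinMatroid α) (N : BinMatroid β) : Prop :=
  ∃ f : α → β, Set.BijOn f (M.E : Set α) (N.E : Set β) ∧
    ∀ c : β → ZMod 2, (∀ e, e ∉ N.E → c e = 0) → (c ∈ N.C ↔ inter M.E (c ∘ f) ∈ M.C)

end BinMatroid

/-- The characteristic vector of the line `{i, i+1, i+3}` of the Fano plane on `ZMod 7`. -/
def fanoLine (i : ZMod 7) : ZMod 7 → ZMod 2 :=
  fun p => if p = i ∨ p = i + 1 ∨ p = i + 3 then 1 else 0

/-- The Fano matroid `F`: the cycle space is spanned by the seven lines of the Fano plane. -/
def fano : BinMatroid (ZMod 7) where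
  E := Finset.univ
  C := Submodule.span (ZMod 2) (Set.range fanoLine)
  supp _ _ e he := absurd (Finset.mem_univ e) he

/-- The cycle matroid of a finite simple graph: ground set the edge set, cycles the
edge sets of even subgraphs. -/
def cycleMatroid {V : Type} [Fintype V] [DecidableEq V] (G : SimpleGraph V)
    [DecidableRel G.Adj] : BinMatroid (Sym2 V) where
  E := G.edgeFinset
  C :=
    { carrier := {c | (∀ e, e ∉ G.edgeFinset → c e = 0) ∧
        ∀ v : V, ∑ e ∈ G.edgeFinset with v ∈ e, c e = 0}
      add_mem' := by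
        rintro a b ⟨ha, ha'⟩ ⟨hb, hb'⟩
        refine ⟨fun e he => by simp [ha e he, hb e he], fun v => ?_⟩
        simp only [Pi.add_apply, Finset.sum_add_distrib, ha' v, hb' v, add_zero]
      zero_mem' := ⟨fun e _ => rfl, fun v => by simp⟩
      smul_mem' := by
        rintro r a ⟨ha, ha'⟩
        refine ⟨fun e he => by simp [ha e he], fun v => ?_⟩
        simp only [Pi.smul_apply, ← Finset.smul_sum, ha' v, smul_zero] }
  supp c hc := hc.1

/-- The Petersen graph: the vertices are the `2`-subsets of a `5`-set, adjacent when disjoint. -/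
def petersenGraph : SimpleGraph {s : Finset (Fin 5) // s.card = 2} where
  Adj s t := Disjoint s.1 t.1
  symm := ⟨fun _ _ h => Disjoint.symm h⟩
  loopless := ⟨fun s h => by
    have h1 : s.1 = ∅ := by simpa using h
    have h2 := s.2
    rw [h1] at h2
    simp at h2⟩

instance : DecidableRel petersenGraph.Adj :=
  fun s t => inferInstanceAs (Decidable (Disjoint s.1 t.1))

open BinMatroid

/-! ## The counterexample: the cycle matroid of a graph with 9 vertices and 14 edges -/

/-- first ends of the 14 edges -/
def src (e : ℕ) : ℕ := [0, 1, 2, 3, 4, 5, 6, 8, 7, 8, 8, 8, 1, 3].getD e 0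
/-- second ends of the 14 edges -/
def tgt (e : ℕ) : ℕ := [1, 2, 3, 4, 5, 6, 7, 0, 0, 2, 4, 6, 5, 7].getD e 0
/-- columns of the generator matrix, as bit masks -/
def mask (e : ℕ) : ℕ := [15, 31, 29, 61, 57, 41, 33, 14, 1, 2, 4, 8, 16, 32].getD e 0

/-- incidence vector -/
def inc (e : ℕ) (v : Fin 9) : ZMod 2 :=
  (if src e = v.1 then 1 else 0) + (if tgt e = v.1 then 1 else 0)

/-- bit -/
def bit (e : ℕ) (i : ℕ) : ZMod 2 := if (mask e).testBit i then 1 else 0

/-- The cycle matroid of the graph with 9 vertices and 14 edges consisting of the 8-cycle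
`0 1 2 3 4 5 6 7`, the chords `15` and `37` and a further vertex `8` joined to `0, 2, 4, 6`.
Its Penrose polynomial is `X^6 - 14 X^5 + 84 X^4 - 235 X^3 + 248 X^2 + 12 X - 96`; below only the
constant coefficient is computed. -/
def M0 : BinMatroid ℕ where
  E := Finset.range 14
  C :=
    { carrier := {c | (∀ e, e ∉ Finset.range 14 → c e = 0) ∧
        ∀ v : Fin 9, ∑ e ∈ Finset.range 14, c e * inc e v = 0}
      add_mem' := by
        rintro a b ⟨ha, ha'⟩ ⟨hb, hb'⟩
        refine ⟨fun e he => by simp [ha e he, hb e he], fun v => ?_⟩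
        simp only [Pi.add_apply, add_mul, Finset.sum_add_distrib, ha' v, hb' v, add_zero]
      zero_mem' := ⟨fun e _ => rfl, fun v => by simp⟩
      smul_mem' := by
        rintro r a ⟨ha, ha'⟩
        refine ⟨fun e he => by simp [ha e he], fun v => ?_⟩
        simp only [Pi.smul_apply, smul_eq_mul, mul_assoc, ← Finset.mul_sum, ha' v, mul_zero] }
  supp c hc := hc.1

/-- generator map -/
def gen : (Fin 6 → ZMod 2) →ₗ[ZMod 2] (ℕ → ZMod 2) where
  toFun x := fun e => ∑ i : Fin 6, x i * bit e i
  map_add' x y := by
    funext e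
    simp only [Pi.add_apply, add_mul, Finset.sum_add_distrib]
  map_smul' a x := by
    funext e
    simp only [Pi.smul_apply, smul_eq_mul, mul_assoc, Finset.mul_sum, RingHom.id_apply]

theorem gen_apply (x : Fin 6 → ZMod 2) (e : ℕ) : gen x e = ∑ i : Fin 6, x i * bit e i := rfl

theorem mask_of_ge (e : ℕ) (he : 14 ≤ e) : mask e = 0 := by
  unfold mask
  rw [List.getD_eq_default]
  simpa using he

theorem gen_ge (x : Fin 6 → ZMod 2) (e : ℕ) (he : 14 ≤ e) : gen x e = 0 := by
  simp [gen_apply, bit, mask_of_ge e he]

theorem gen_chord (x : Fin 6 → ZMod 2) (i : Fin 6) : gen x (8 + i) = x i := by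
  have : ∀ i j : Fin 6, bit (8 + i) j = if j = i then 1 else 0 := by decide +kernel
  simp [gen_apply, this]

theorem gen_inj : Function.Injective gen := by
  intro x y h
  funext i
  rw [← gen_chord x i, ← gen_chord y i, h]

theorem col_rel : ∀ i : Fin 6, ∀ v : Fin 9, ∑ e ∈ Finset.range 14, bit e i * inc e v = 0 := by
  decide +kernel

theorem gen_mem (x : Fin 6 → ZMod 2) : gen x ∈ M0.C := by
  refine ⟨fun e he => gen_ge x e (by simpa using he), fun v => ?_⟩
  simp only [gen_apply, Finset.sum_mul]
  rw [Finset.sum_comm]
  refine Finset.sum_eq_zero fun i _ => ?_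
  have := col_rel i v
  simp only [mul_assoc, ← Finset.mul_sum, this, mul_zero]

theorem mem_range (c : ℕ → ZMod 2) (hc : c ∈ M0.C) : gen (fun i => c (8 + i)) = c := by
  obtain ⟨h1, h2⟩ := hc
  have two : (2 : ZMod 2) = 0 := by decide
  have i0 := h2 0
  have i1 := h2 1
  have i2 := h2 2
  have i3 := h2 3
  have i4 := h2 4
  have i5 := h2 5
  have i6 := h2 6
  have i7 := h2 7
  have i8 := h2 8
  simp [Finset.sum_range_succ, inc, src, tgt] at i0 i1 i2 i3 i4 i5 i6 i7 i8
  have e6 : c 6 = c 8 + c 13 := by linear_combination i7 - (c 8 + c 13) * two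
  have e5 : c 5 = c 6 + c 11 := by linear_combination i6 - (c 6 + c 11) * two
  have e4 : c 4 = c 5 + c 12 := by linear_combination i5 - (c 5 + c 12) * two
  have e3 : c 3 = c 4 + c 10 := by linear_combination i4 - (c 4 + c 10) * two
  have e2 : c 2 = c 3 + c 13 := by linear_combination i3 - (c 3 + c 13) * two
  have e1 : c 1 = c 2 + c 9 := by linear_combination i2 - (c 2 + c 9) * two
  have e0 : c 0 = c 1 + c 12 := by linear_combination i1 - (c 1 + c 12) * two
  have e7 : c 7 = c 0 + c 8 := by linear_combination i0 - (c 0 + c 8) * two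
  funext e
  by_cases he : e < 14
  · rw [gen_apply]
    simp only [Fin.sum_univ_succ, Fin.sum_univ_zero]
    interval_cases e
    all_goals simp [bit, mask, Nat.testBit_eq_decide_div_mod_eq]
    · linear_combination -e0 - e1 - e2 - e3 - e4 - e5 - e6 - (c 12 + c 13) * two
    · linear_combination -e1 - e2 - e3 - e4 - e5 - e6 - c 13 * two
    · linear_combination -e2 - e3 - e4 - e5 - e6 - c 13 * two
    · linear_combination -e3 - e4 - e5 - e6
    · linear_combination -e4 - e5 - e6
    · linear_combination -e5 - e6
    · linear_combination -e6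
    · linear_combination -e7 - e0 - e1 - e2 - e3 - e4 - e5 - e6 - (c 8 + c 12 + c 13) * two
  · rw [gen_ge _ _ (by omega), h1 e (by simpa using he)]

theorem M0_C : M0.C = LinearMap.range gen := by
  ext c
  constructor
  · intro hc
    exact ⟨_, mem_range c hc⟩
  · rintro ⟨x, rfl⟩
    exact gen_mem x

theorem finrank_M0 : Module.finrank (ZMod 2) M0.C = 6 := by
  rw [M0_C, LinearMap.finrank_range_of_inj gen_inj]
  simp

theorem M0_bridgeless : M0.Bridgeless := by
  intro e he
  have he' : e < 14 := by simpa [M0] using he
  have : ∀ e : Fin 14, ∃ i : Fin 6, bit e i ≠ 0 := by decide +kernel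
  obtain ⟨i, hi⟩ := this ⟨e, he'⟩
  refine ⟨gen (Pi.single i 1), gen_mem _, ?_⟩
  simpa [gen_apply, Pi.single_apply] using hi

/-- dot product form -/
theorem mem_bicycles_iff (A : Finset ℕ) (x : Fin 6 → ZMod 2) :
    gen x ∈ M0.bicycles A ↔
      ∀ i : Fin 6, ∑ e ∈ Finset.range 14, (if e ∈ A then bit e i * gen x e else 0) = 0 := by
  have h0 : gen x ∈ M0.bicycles A ↔ ∀ c ∈ M0.C, ∑ e ∈ Finset.range 14,
      c e * (if e ∈ A then gen x e else 0) = 0 := by
    constructor
    · rintro ⟨-, h⟩
      exact h.2
    · intro h
      refine ⟨gen_mem x, ⟨fun e he => ?_, h⟩⟩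
      have he' : 14 ≤ e := by simpa [M0, dual] using he
      simp [inter, gen_ge x e he']
  rw [h0]
  constructor
  · intro h i
    have := h (gen (Pi.single i 1)) (gen_mem _)
    refine Eq.trans (Finset.sum_congr rfl fun e _ => ?_) this
    have h1 : gen (Pi.single i 1) e = bit e i := by simp [gen_apply, Pi.single_apply]
    rw [h1]
    split_ifs <;> simp
  · intro h c hc
    rw [M0_C] at hc
    obtain ⟨y, rfl⟩ := hc
    have : ∀ e, gen y e * (if e ∈ A then gen x e else 0) =
        ∑ i : Fin 6, y i * (if e ∈ A then bit e i * gen x e else 0) := by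
      intro e
      rw [gen_apply y e, Finset.sum_mul]
      refine Finset.sum_congr rfl fun i _ => ?_
      split_ifs <;> simp [mul_assoc]
    simp only [this]
    rw [Finset.sum_comm]
    refine Finset.sum_eq_zero fun i _ => ?_
    rw [← Finset.mul_sum, h i, mul_zero]

/-- the vector with bit pattern `n` -/
def vec (n : ℕ) : Fin 6 → ZMod 2 := fun i => if n.testBit i then 1 else 0

theorem vec_surj (x : Fin 6 → ZMod 2) : ∃ n : ℕ, n < 64 ∧ vec n = x := by
  have : ∀ x : Fin 6 → ZMod 2, ∃ n : Fin 64, vec n = x := by decide +kernel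
  obtain ⟨n, hn⟩ := this x
  exact ⟨n, n.2, hn⟩

theorem vec_ne (n : ℕ) (hn : n < 64) (h0 : n ≠ 0) : vec n ≠ 0 := by
  have : ∀ n : Fin 64, n.1 ≠ 0 → vec n ≠ 0 := by decide +kernel
  exact this ⟨n, hn⟩ h0

theorem bicycles_eq_bot_iff (A : Finset ℕ) :
    M0.bicycles A = ⊥ ↔ ∀ n, n < 64 → n ≠ 0 → ∃ i : Fin 6,
      ∑ e ∈ Finset.range 14, (if e ∈ A then bit e i * gen (vec n) e else 0) ≠ 0 := by
  constructor
  · intro h n hn h0
    by_contra hcon
    push Not at hcon
    have h1 := (mem_bicycles_iff A (vec n)).2 hcon
    rw [h, Submodule.mem_bot] at h1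
    exact vec_ne n hn h0 (gen_inj (by rw [h1, map_zero]))
  · intro h
    rw [eq_bot_iff]
    intro c hc
    have hc1 : c ∈ M0.C := hc.1
    rw [M0_C] at hc1
    obtain ⟨x, rfl⟩ := hc1
    obtain ⟨n, hn, rfl⟩ := vec_surj x
    rw [Submodule.mem_bot]
    by_cases h0 : n = 0
    · subst h0
      have : vec 0 = 0 := by decide
      rw [this, map_zero]
    · obtain ⟨i, hi⟩ := h n hn h0
      exact absurd ((mem_bicycles_iff A (vec n)).1 hc i) hi

/-- packed matrices `v_e v_e^T x` for all `x`: bit `64 * i + n` is the `i`-th coordinate for the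
vector `x = vec n` -/
def pk (e : ℕ) : ℕ :=
  [47758604899437808229177137785684506741037425581937353261410521030501135182230,
  1254990567239430606111093059153833311333929541142641127295738043407577288568432259932315762387350,
  756331769162162433008207176303013967247056794571135147769704914147972346285042672197930498499930,
  25450147613166944709898138881752713977202235933786329297695974277510861514294639141346991698820871661739828356425050,
  13185305981231573821879752040833445551255854496871969908420641576252676203875453932059878886987178397979255867004330,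
  26216899061492865430659130965321714354862857727258627533059505853841485450326250113965810576993886495128356358084010,
  13134002068522824557322450691581692407166014540437534131805336284827590529716939633374588678534575733315094855723690,
  88308363776318966159610556660322295483427692585469068294669536590321114152960, 12297829382473034410,
  272225893536750770755942290686446927872, 5907860456834523071525183111799273367189629023089191813120,
  115341536360906404773646825361731961614378031058610201523653457246081588920320,
  2135954443842604378477067796439736533550875009592081193862664099595489142680778291053332445265920,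
  39402006187220484748318754053700330223871391507279186711275168909295366413949519107060327022604841428366125244088320].getD e 0

/-- test whether for each `0 < n < 64` one of the bits `64 * i + n`, `i < 6` is set -/
def check (a : ℕ) : Bool :=
  (a ||| a >>> 64 ||| a >>> 128 ||| a >>> 192 ||| a >>> 256 ||| a >>> 320 ||| 1) % 2 ^ 64
    == 2 ^ 64 - 1

/-- signed count -/
def count : ℕ → ℕ → ℤ
  | 0, a => if check a then 1 else 0
  | n + 1, a => count n a - count n (a ^^^ pk n)

theorem count_val : count 14 0 = -96 := by decide +kernel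

/-- exclusive or of the `pk e` with `e ∈ A`, `e < n` -/
def xs (A : Finset ℕ) : ℕ → ℕ
  | 0 => 0
  | n + 1 => if n ∈ A then xs A n ^^^ pk n else xs A n

theorem xs_congr (A B : Finset ℕ) (n : ℕ) (h : ∀ e < n, e ∈ A ↔ e ∈ B) : xs A n = xs B n := by
  induction n with
  | zero => rfl
  | succ n ih =>
    have h1 := ih (fun e he => h e (by omega))
    have h2 := h n (by omega)
    simp only [xs, h1, h2]

theorem count_eq (n : ℕ) : ∀ a : ℕ, count n a =
    ∑ A ∈ (Finset.range n).powerset, (-1 : ℤ) ^ A.card *
      (if check (a ^^^ xs A n) then 1 else 0) := by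
  induction n with
  | zero => intro a; simp [count, xs]
  | succ n ih =>
    intro a
    rw [Finset.range_add_one, Finset.sum_powerset_insert Finset.notMem_range_self, count, ih, ih,
      sub_eq_add_neg, ← Finset.sum_neg_distrib]
    congr 1
    · refine Finset.sum_congr rfl fun A hA => ?_
      have hn : n ∉ A := fun h => by simpa using Finset.mem_powerset.1 hA h
      simp [xs, hn]
    · refine Finset.sum_congr rfl fun A hA => ?_
      have hn : n ∉ A := fun h => by simpa using Finset.mem_powerset.1 hA h
      have h1 : xs (insert n A) n = xs A n := by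
        refine xs_congr _ _ _ fun e he => ?_
        have : e ≠ n := by omega
        simp [this]
      rw [Finset.card_insert_of_notMem hn]
      simp only [xs, Finset.mem_insert_self, if_true, h1]
      rw [pow_succ, Nat.xor_assoc, Nat.xor_comm (pk n)]
      ring

theorem xs_testBit (A : Finset ℕ) (p n : ℕ) :
    (if (xs A n).testBit p then (1 : ZMod 2) else 0) =
      ∑ e ∈ Finset.range n, (if e ∈ A then (if (pk e).testBit p then 1 else 0) else 0) := by
  induction n with
  | zero => simp [xs]
  | succ n ih =>
    rw [Finset.sum_range_succ, ← ih]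
    by_cases h : n ∈ A
    · simp only [xs, h, if_true, Nat.testBit_xor]
      cases (xs A n).testBit p <;> cases (pk n).testBit p <;> decide
    · simp [xs, h]

theorem pk_spec (e : Fin 14) (i : Fin 6) (n : Fin 64) :
    (if (pk e).testBit (64 * i + n) then (1 : ZMod 2) else 0) = bit e i * gen (vec n) e := by
  revert e i n
  decide +kernel

theorem check_iff (a : ℕ) : check a = true ↔
    ∀ n, n < 64 → n ≠ 0 → ∃ i : Fin 6, a.testBit (64 * i + n) = true := by
  unfold check
  rw [beq_iff_eq]
  constructor
  · intro h n hn h0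
    have h1 := congrArg (fun t => t.testBit n) h
    simp only [Nat.testBit_mod_two_pow, Nat.testBit_two_pow_sub_one, hn, decide_true,
      Bool.true_and, Nat.testBit_or, Nat.testBit_shiftRight, Bool.or_eq_true] at h1
    rcases h1 with (((((h1 | h1) | h1) | h1) | h1) | h1) | h1
    · exact ⟨0, by simpa using h1⟩
    · exact ⟨1, by simpa using h1⟩
    · exact ⟨2, by simpa using h1⟩
    · exact ⟨3, by simpa using h1⟩
    · exact ⟨4, by simpa using h1⟩
    · exact ⟨5, by simpa using h1⟩
    · exfalso
      rw [Nat.testBit_one_eq_true_iff_self_eq_zero] at h1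
      exact h0 h1
  · intro h
    refine Nat.eq_of_testBit_eq fun n => ?_
    simp only [Nat.testBit_mod_two_pow, Nat.testBit_two_pow_sub_one, Nat.testBit_or,
      Nat.testBit_shiftRight]
    by_cases hn : n < 64
    · simp only [hn, decide_true, Bool.true_and, Bool.or_eq_true]
      by_cases h0 : n = 0
      · right
        subst h0
        decide
      · left
        obtain ⟨i, hi⟩ := h n hn h0
        fin_cases i <;> simp_all
    · simp [hn]

theorem finrank_bicycles_eq_zero (A : Finset ℕ) :
    Module.finrank (ZMod 2) (M0.bicycles A) = 0 ↔ check (xs A 14) = true := by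
  have hfin : FiniteDimensional (ZMod 2) (LinearMap.range gen) := inferInstance
  have hle : M0.bicycles A ≤ LinearMap.range gen := by
    rw [← M0_C]; exact inf_le_left
  have : FiniteDimensional (ZMod 2) (M0.bicycles A) := Submodule.finiteDimensional_of_le hle
  rw [Submodule.finrank_eq_zero, bicycles_eq_bot_iff, check_iff]
  refine forall_congr' fun n => forall_congr' fun hn => forall_congr' fun h0 =>
    exists_congr fun i => ?_
  have h1 := xs_testBit A (64 * i + n) 14
  have h2 : ∑ e ∈ Finset.range 14, (if e ∈ A then (if (pk e).testBit (64 * i + n) then (1 : ZMod 2)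
      else 0) else 0) = ∑ e ∈ Finset.range 14, (if e ∈ A then bit e i * gen (vec n) e else 0) := by
    refine Finset.sum_congr rfl fun e he => ?_
    have he' : e < 14 := by simpa using he
    have := pk_spec ⟨e, he'⟩ i ⟨n, hn⟩
    simp only at this
    rw [this]
  rw [← h2, ← h1]
  cases (xs A 14).testBit (64 * i + n) <;> simp

theorem coeff_zero : M0.penrose.coeff 0 = -96 := by
  rw [← count_val, count_eq, penrose, Polynomial.finsetSum_coeff]
  refine Finset.sum_congr rfl fun A _ => ?_
  have h1 : (-1 : ℤ[X]) ^ A.card = C ((-1) ^ A.card) := by simp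
  rw [h1, coeff_C_mul, coeff_X_pow, Nat.zero_xor]
  congr 1
  have := finrank_bicycles_eq_zero A
  by_cases hc : check (xs A 14) = true
  · rw [if_pos hc, if_pos (this.2 hc).symm]
  · rw [if_neg hc, if_neg]
    intro h
    exact hc (this.1 h.symm)

theorem M0_not_alternating : ¬ M0.Alternating := by
  intro h
  have := h 0 (Nat.zero_le _)
  rw [coeff_zero, finrank_M0] at this
  norm_num at this

/-- incidence value of an element with ends `a`, `b` at the vertex `v` -/
def incid {V : Type} [DecidableEq V] (a b v : V) : ZMod 2 :=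
  (if a = v then 1 else 0) + (if b = v then 1 else 0)

/-- cycle matroids of finite multigraphs -/
def Graphic (M : BinMatroid α) : Prop :=
  ∃ (V : Type) (_ : Fintype V) (_ : DecidableEq V) (s t : α → V),
    ∀ c : α → ZMod 2, (∀ e, e ∉ M.E → c e = 0) →
      (c ∈ M.C ↔ ∀ v, ∑ e ∈ M.E, c e * incid (s e) (t e) v = 0)

theorem zmod2_add_self (x : ZMod 2) : x + x = 0 := CharTwo.add_self_eq_zero x

theorem M0_graphic : Graphic M0 := by
  refine ⟨Fin 9, inferInstance, inferInstance, fun e => Fin.ofNat 9 (src e),
    fun e => Fin.ofNat 9 (tgt e), fun c hc => ?_⟩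
  have key : ∀ v : Fin 9, ∀ e : Fin 14,
      incid (Fin.ofNat 9 (src e)) (Fin.ofNat 9 (tgt e)) v = inc e v := by decide +kernel
  have key2 : ∀ v : Fin 9, ∑ e ∈ M0.E, c e * incid (Fin.ofNat 9 (src e)) (Fin.ofNat 9 (tgt e)) v
      = ∑ e ∈ Finset.range 14, c e * inc e v := by
    intro v
    refine Finset.sum_congr rfl fun e he => ?_
    have he' : e < 14 := by simpa using he
    rw [← key v ⟨e, he'⟩]
  simp only [key2]
  exact ⟨fun h => h.2, fun h => ⟨hc, h⟩⟩

theorem Graphic.reduction {M : BinMatroid α} (h : Graphic M) {A : Finset α} (hA : A ⊆ M.E) :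
    Graphic (M.reduction A) := by
  obtain ⟨V, hV, hV', s, t, h⟩ := h
  refine ⟨V, hV, hV', s, t, fun c hc => ?_⟩
  have hc' : ∀ e, e ∉ M.E → c e = 0 := fun e he => hc e (fun h => he (hA h))
  have h1 : c ∈ (M.reduction A).C ↔ c ∈ M.C := ⟨fun h => h.1, fun h => ⟨h, hc⟩⟩
  rw [h1, h c hc']
  refine forall_congr' fun v => ?_
  have : ∑ e ∈ (M.reduction A).E, c e * incid (s e) (t e) v =
      ∑ e ∈ M.E, c e * incid (s e) (t e) v := by
    refine Finset.sum_subset hA fun e _ he => ?_
    rw [hc e he, zero_mul]
  rw [this]

theorem inter_apply [DecidableEq α] (A : Finset α) (c : α → ZMod 2) (e : α) :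
    inter A c e = if e ∈ A then c e else 0 := rfl

theorem inter_of_supp [DecidableEq α] (A : Finset α) (c : α → ZMod 2)
    (h : ∀ e, e ∉ A → c e = 0) : inter A c = c := by
  funext e
  rw [inter_apply]
  split_ifs with he
  · rfl
  · rw [h e he]

theorem Graphic.contraction_one [DecidableEq α] {M : BinMatroid α} (h : Graphic M) {e₀ : α}
    (he₀ : e₀ ∈ M.E) : Graphic (M.contraction (M.E.erase e₀)) := by
  classical
  obtain ⟨V, hV, hV', s, t, h⟩ := h
  -- general facts
  have hmem : ∀ c : α → ZMod 2, c ∈ (M.contraction (M.E.erase e₀)).C ↔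
      ∃ d ∈ M.C, inter (M.E.erase e₀) d = c := fun c => Submodule.mem_map
  have hsum : ∀ (c : α → ZMod 2) (g : α → ZMod 2),
      ∑ e ∈ M.E, c e * g e = c e₀ * g e₀ + ∑ e ∈ M.E.erase e₀, c e * g e := by
    intro c g
    rw [Finset.add_sum_erase M.E (fun e => c e * g e) he₀]
  have hint : ∀ (c : α → ZMod 2) (g : α → ZMod 2),
      ∑ e ∈ M.E.erase e₀, (inter (M.E.erase e₀) c) e * g e =
        ∑ e ∈ M.E.erase e₀, c e * g e := by
    intro c g
    refine Finset.sum_congr rfl fun e he => ?_
    rw [inter_apply, if_pos he]
  by_cases hab : s e₀ = t e₀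
  · refine ⟨V, hV, hV', s, t, fun c hc => ?_⟩
    have hc' : ∀ e, e ∉ M.E → c e = 0 := fun e he => hc e (fun h => he (Finset.mem_of_mem_erase h))
    have hz : ∀ v, incid (s e₀) (t e₀) v = 0 := by
      intro v
      rw [incid, hab, zmod2_add_self]
    rw [hmem]
    constructor
    · rintro ⟨d, hd, rfl⟩ v
      have h1 := (h d (M.supp d hd)).1 hd v
      rw [hsum, hz v, mul_zero, zero_add] at h1
      change ∑ e ∈ M.E.erase e₀, _ = 0
      rw [hint, h1]
    · intro h1
      refine ⟨c, (h c hc').2 fun v => ?_, inter_of_supp _ _ hc⟩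
      rw [hsum, hz v, mul_zero, zero_add]
      exact h1 v
  · set a := s e₀ with ha
    set b := t e₀ with hb
    refine ⟨V, hV, hV', fun e => if s e = b then a else s e, fun e => if t e = b then a else t e,
      fun c hc => ?_⟩
    have hc0 : c e₀ = 0 := hc e₀ (by simp [contraction])
    have hc' : ∀ e, e ∉ M.E → c e = 0 := fun e he => hc e (fun h => he (Finset.mem_of_mem_erase h))
    -- the new incidence function
    have one : ∀ (x v : V), (if (if x = b then a else x) = v then (1 : ZMod 2) else 0) =
        (if v = b then 0 else (if x = v then 1 else 0)) +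
          (if v = a then (if x = b then 1 else 0) else 0) := by
      intro x v
      have hba : ¬ b = a := fun h => hab h.symm
      by_cases hx : x = b
      · rw [hx]
        by_cases hv : v = b
        · rw [hv]
          simp [hab, hba]
        · have hv' : ¬ b = v := fun h => hv h.symm
          by_cases hva : v = a
          · rw [hva]
            simp [hab, hba]
          · have hva' : ¬ a = v := fun h => hva h.symm
            simp [hv, hva, hv', hva']
      · by_cases hv : v = b
        · rw [hv]
          simp [hx, hba]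
        · simp [hx, hv]
    have hinc : ∀ (x y v : V), incid (if x = b then a else x) (if y = b then a else y) v =
        (if v = b then 0 else incid x y v) + (if v = a then incid x y b else 0) := by
      intro x y v
      unfold incid
      rw [one x v, one y v]
      split_ifs <;> ring
    have hD : ∀ (d : α → ZMod 2) (v : V), ∑ e ∈ M.E.erase e₀,
        d e * incid (if s e = b then a else s e) (if t e = b then a else t e) v =
        (if v = b then 0 else ∑ e ∈ M.E.erase e₀, d e * incid (s e) (t e) v) +
        (if v = a then ∑ e ∈ M.E.erase e₀, d e * incid (s e) (t e) b else 0) := by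
      intro d v
      simp only [hinc, mul_add, Finset.sum_add_distrib]
      congr 1
      · split_ifs <;> simp
      · split_ifs <;> simp
    have hi0 : ∀ v, incid (s e₀) (t e₀) v =
        (if v = a then 1 else 0) + (if v = b then 1 else 0) := by
      intro v
      unfold incid
      rw [← ha, ← hb]
      simp only [eq_comm]
    rw [hmem]
    constructor
    · rintro ⟨d, hd, rfl⟩ v
      have h1 := (h d (M.supp d hd)).1 hd
      have h2 : ∀ v, ∑ e ∈ M.E.erase e₀, d e * incid (s e) (t e) v =
          d e₀ * ((if v = a then 1 else 0) + (if v = b then 1 else 0)) := by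
        intro v
        have := h1 v
        rw [hsum, hi0] at this
        exact (CharTwo.add_eq_zero.1 this).symm
      change ∑ e ∈ M.E.erase e₀, _ = 0
      rw [hint, hD, h2, h2]
      by_cases hvb : v = b
      · subst hvb
        simp [Ne.symm hab]
      · by_cases hva : v = a
        · subst hva
          simp [hab, Ne.symm hab, zmod2_add_self]
        · simp [hva, hvb]
    · intro h1
      have h1' : ∀ v, (if v = b then 0 else ∑ e ∈ M.E.erase e₀, c e * incid (s e) (t e) v) +
        (if v = a then ∑ e ∈ M.E.erase e₀, c e * incid (s e) (t e) b else 0) = 0 := by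
        intro v
        rw [← hD]
        exact h1 v
      set δ := ∑ e ∈ M.E.erase e₀, c e * incid (s e) (t e) b with hδ
      have hDa : ∑ e ∈ M.E.erase e₀, c e * incid (s e) (t e) a = δ := by
        have := h1' a
        simp only [if_neg hab, if_true] at this
        exact CharTwo.add_eq_zero.1 this
      have hDo : ∀ v, v ≠ a → v ≠ b → ∑ e ∈ M.E.erase e₀, c e * incid (s e) (t e) v = 0 := by
        intro v hva hvb
        have := h1' v
        simpa [hva, hvb] using this
      refine ⟨c + Pi.single e₀ δ, ?_, ?_⟩
      · rw [h]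
        · intro v
          rw [hsum]
          have h3 : ∑ e ∈ M.E.erase e₀, (c + Pi.single e₀ δ : α → ZMod 2) e *
              incid (s e) (t e) v = ∑ e ∈ M.E.erase e₀, c e * incid (s e) (t e) v := by
            refine Finset.sum_congr rfl fun e he => ?_
            have : e ≠ e₀ := Finset.ne_of_mem_erase he
            simp [this]
          rw [h3, hi0]
          simp only [Pi.add_apply, hc0, Pi.single_eq_same, zero_add]
          by_cases hva : v = a
          · subst hva
            rw [hDa]
            simp [hab, zmod2_add_self]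
          · by_cases hvb : v = b
            · subst hvb
              rw [← hδ]
              simp [Ne.symm hab, zmod2_add_self]
            · rw [hDo v hva hvb]
              simp [hva, hvb]
        · intro e he
          have : e ≠ e₀ := fun h => he (h ▸ he₀)
          simp [hc' e he, this]
      · funext e
        rw [inter_apply]
        split_ifs with he
        · have : e ≠ e₀ := Finset.ne_of_mem_erase he
          simp [this]
        · exact (hc e he).symm

theorem Graphic.congr {M N : BinMatroid α} (h : Graphic M) (hE : N.E = M.E) (hC : N.C = M.C) :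
    Graphic N := by
  obtain ⟨V, hV, hV', s, t, h⟩ := h
  refine ⟨V, hV, hV', s, t, fun c hc => ?_⟩
  rw [hC, hE]
  exact h c (by rwa [hE] at hc)

theorem Graphic.contraction [DecidableEq α] (n : ℕ) : ∀ {M : BinMatroid α}, Graphic M →
    ∀ {A : Finset α}, A ⊆ M.E → (M.E \ A).card = n → Graphic (M.contraction A) := by
  induction n with
  | zero =>
    intro M hM A hA hn
    have hAE : A = M.E := by
      rw [Finset.card_eq_zero, Finset.sdiff_eq_empty_iff_subset] at hn
      exact Finset.Subset.antisymm hA hn
    subst hAE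
    refine hM.congr rfl ?_
    ext c
    change c ∈ Submodule.map _ _ ↔ _
    rw [Submodule.mem_map]
    constructor
    · rintro ⟨d, hd, rfl⟩
      rwa [inter_of_supp _ _ (M.supp d hd)]
    · intro hc
      exact ⟨c, hc, inter_of_supp _ _ (M.supp c hc)⟩
  | succ n ih =>
    intro M hM A hA hn
    obtain ⟨e, he⟩ : (M.E \ A).Nonempty := by
      rw [← Finset.card_pos]; omega
    rw [Finset.mem_sdiff] at he
    have h1 := hM.contraction_one he.1
    have hA' : A ⊆ M.E.erase e := fun x hx => Finset.mem_erase.2
      ⟨fun h => he.2 (h ▸ hx), hA hx⟩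
    have h2 : ((M.contraction (M.E.erase e)).E \ A).card = n := by
      change ((M.E.erase e) \ A).card = n
      rw [Finset.erase_sdiff_comm, Finset.card_erase_of_mem (Finset.mem_sdiff.2 he), hn]
      rfl
    have h3 := ih h1 (A := A) hA' h2
    refine h3.congr rfl ?_
    change Submodule.map _ _ = Submodule.map _ (Submodule.map _ _)
    rw [← Submodule.map_comp]
    congr 1
    ext c x
    simp only [LinearMap.comp_apply, inter_apply]
    by_cases hx : x ∈ A
    · have := hA' hx
      simp only [hx, this, if_true]
    · simp [hx]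

theorem IsMinor.trans [DecidableEq α] {M N N' : BinMatroid α} (h : IsMinor M N)
    (h' : IsMinor N N') : IsMinor M N' := by
  induction h' with
  | refl => exact h
  | reduction _ hA ih => exact IsMinor.reduction ih hA
  | contraction _ hA ih => exact IsMinor.contraction ih hA

theorem IsMinor.graphic [DecidableEq α] {M N : BinMatroid α} (h : IsMinor M N)
    (hM : Graphic M) : Graphic N := by
  induction h with
  | refl => exact hM
  | reduction _ hA ih => exact ih.reduction hA
  | contraction _ hA ih => exact Graphic.contraction _ ih hA rfl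

theorem IsMinor.ground [DecidableEq α] {M N : BinMatroid α} (h : IsMinor M N) : N.E ⊆ M.E := by
  induction h with
  | refl => exact Finset.Subset.refl _
  | reduction _ hA ih => exact hA.trans ih
  | contraction _ hA ih => exact hA.trans ih

theorem Graphic.of_iso [Nonempty α] [DecidableEq α] {M : BinMatroid α} {N : BinMatroid β}
    (hM : Graphic M) (h : Iso M N) : Graphic N := by
  classical
  obtain ⟨V, hV, hV', s, t, hM⟩ := hM
  obtain ⟨f, hf, h⟩ := h
  let g : β → α := Function.invFunOn f (M.E : Set α)
  have hg : ∀ e ∈ M.E, g (f e) = e := fun e he =>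
    hf.injOn.leftInvOn_invFunOn he
  refine ⟨V, hV, hV', s ∘ g, t ∘ g, fun c hc => ?_⟩
  rw [h c hc, hM _ (fun e he => by rw [inter_apply, if_neg he])]
  refine forall_congr' fun v => ?_
  have : ∑ e ∈ M.E, inter M.E (c ∘ f) e * incid (s e) (t e) v =
      ∑ e ∈ N.E, c e * incid ((s ∘ g) e) ((t ∘ g) e) v := by
    refine Finset.sum_nbij f (fun e he => hf.mapsTo he) hf.injOn hf.surjOn fun e he => ?_
    rw [inter_apply, if_pos he, Function.comp_apply, Function.comp_apply, Function.comp_apply,
      hg e he]
  rw [this]

/-- counting lemma: lower bound for the dimension of the cycle space of a graphic matroid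
without small cocycles -/
theorem Graphic.finrank_ge [Fintype α] [DecidableEq α] {M : BinMatroid α} (hM : Graphic M)
    (q : ℕ) (hq : 0 < q) (hsize : 2 * M.E.card < 3 * (q + 1))
    (hco : ∀ k : α → ZMod 2, (∀ e, e ∉ M.E → k e = 0) → (∀ c ∈ M.C, ∑ e ∈ M.E, c e * k e = 0) →
      k ≠ 0 → 3 ≤ (M.E.filter (fun e => k e ≠ 0)).card) :
    M.E.card + 1 ≤ Module.finrank (ZMod 2) M.C + q := by
  obtain ⟨V, hV, hV', s, t, hM⟩ := hM
  let star : V → α → ZMod 2 := fun v e => if e ∈ M.E then incid (s e) (t e) v else 0
  let V' : Finset V := Finset.univ.filter (fun v => star v ≠ 0)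
  have hstar : ∀ v ∈ V', 3 ≤ (M.E.filter (fun e => star v e ≠ 0)).card := by
    intro v hv
    refine hco (star v) (fun e he => by simp [star, he]) (fun c hc => ?_)
      (Finset.mem_filter.1 hv).2
    rw [← (hM c (M.supp c hc)).1 hc v]
    exact Finset.sum_congr rfl fun e he => by simp [star, he]
  have hdouble : ∑ v ∈ V', (M.E.filter (fun e => star v e ≠ 0)).card ≤ 2 * M.E.card := by
    have h1 : ∑ v ∈ V', (M.E.filter (fun e => star v e ≠ 0)).card
        ≤ ∑ v : V, (M.E.filter (fun e => star v e ≠ 0)).card :=
      Finset.sum_le_sum_of_subset (Finset.subset_univ _)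
    have h2 : ∑ v : V, (M.E.filter (fun e => star v e ≠ 0)).card =
        ∑ e ∈ M.E, (Finset.univ.filter (fun v => star v e ≠ 0)).card := by
      simp only [Finset.card_filter]
      rw [Finset.sum_comm]
    have h3 : ∀ e ∈ M.E, (Finset.univ.filter (fun v => star v e ≠ 0)).card ≤ 2 := by
      intro e he
      have hsub : Finset.univ.filter (fun v => star v e ≠ 0) ⊆ {s e, t e} := by
        intro v hv
        have h4 := (Finset.mem_filter.1 hv).2
        simp only [star, if_pos he, incid] at h4
        by_contra hcon
        simp only [Finset.mem_insert, Finset.mem_singleton, not_or] at hcon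
        rw [if_neg (Ne.symm hcon.1), if_neg (Ne.symm hcon.2), add_zero] at h4
        exact h4 rfl
      exact (Finset.card_le_card hsub).trans Finset.card_le_two
    calc _ ≤ _ := h1
      _ = _ := h2
      _ ≤ ∑ _e ∈ M.E, 2 := Finset.sum_le_sum h3
      _ = 2 * M.E.card := by rw [Finset.sum_const, smul_eq_mul, mul_comm]
  have hV'card : V'.card ≤ q := by
    have h1 : 3 * V'.card ≤ ∑ v ∈ V', (M.E.filter (fun e => star v e ≠ 0)).card := by
      rw [mul_comm, ← smul_eq_mul, ← Finset.sum_const]
      exact Finset.sum_le_sum hstar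
    by_contra hcon
    push Not at hcon
    have : 3 * (q + 1) ≤ 3 * V'.card := Nat.mul_le_mul_left 3 hcon
    omega
  -- a set of constraints which suffices
  obtain ⟨W, hW, hWcard⟩ : ∃ W : Finset V, (∀ c : α → ZMod 2, (∀ e, e ∉ M.E → c e = 0) →
      (∀ v ∈ W, ∑ e ∈ M.E, c e * star v e = 0) → c ∈ M.C) ∧ W.card + 1 ≤ q := by
    have hcong : ∀ (c : α → ZMod 2) (v : V), ∑ e ∈ M.E, c e * star v e =
        ∑ e ∈ M.E, c e * incid (s e) (t e) v := fun c v =>
      Finset.sum_congr rfl fun e he => by simp [star, he]
    have hzero : ∀ (c : α → ZMod 2) (v : V), v ∉ V' → ∑ e ∈ M.E, c e * star v e = 0 := by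
      intro c v hv
      have : star v = 0 := by
        by_contra hcon
        exact hv (Finset.mem_filter.2 ⟨Finset.mem_univ _, hcon⟩)
      simp [this]
    rcases V'.eq_empty_or_nonempty with hemp | ⟨v₀, hv₀⟩
    · refine ⟨∅, fun c hc _ => (hM c hc).2 fun v => ?_, by simp; omega⟩
      rw [← hcong]
      exact hzero c v (by simp [hemp])
    · refine ⟨V'.erase v₀, fun c hc hcon => (hM c hc).2 ?_, ?_⟩
      · have hall : ∑ v : V, ∑ e ∈ M.E, c e * star v e = 0 := by
          rw [Finset.sum_comm]
          refine Finset.sum_eq_zero fun e he => ?_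
          rw [← Finset.mul_sum]
          have : ∑ v : V, star v e = 0 := by
            simp only [star, if_pos he, incid, Finset.sum_add_distrib, Finset.sum_ite_eq,
              Finset.mem_univ, if_true]
            decide
          rw [this, mul_zero]
        have hne : ∀ v, v ≠ v₀ → ∑ e ∈ M.E, c e * star v e = 0 := by
          intro v hv
          by_cases hvV : v ∈ V'
          · exact hcon v (Finset.mem_erase.2 ⟨hv, hvV⟩)
          · exact hzero c v hvV
        intro v
        rw [← hcong]
        by_cases hv : v = v₀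
        · subst hv
          rw [← hall]
          symm
          exact Finset.sum_eq_single v (fun b _ hb => hne b hb) (fun h => absurd (Finset.mem_univ _) h)
        · exact hne v hv
      · rw [Finset.card_erase_of_mem hv₀]
        have : 0 < V'.card := Finset.card_pos.2 ⟨v₀, hv₀⟩
        omega
  -- linear algebra
  let Φ : (M.E → ZMod 2) →ₗ[ZMod 2] (W → ZMod 2) :=
    { toFun := fun c v => ∑ e : M.E, c e * star v e
      map_add' := fun c d => by
        funext v
        simp only [Pi.add_apply, add_mul, Finset.sum_add_distrib]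
      map_smul' := fun r c => by
        funext v
        simp only [Pi.smul_apply, smul_eq_mul, mul_assoc, Finset.mul_sum, RingHom.id_apply] }
  let ext0 : (M.E → ZMod 2) →ₗ[ZMod 2] (α → ZMod 2) :=
    { toFun := fun c e => if h : e ∈ M.E then c ⟨e, h⟩ else 0
      map_add' := fun c d => by
        funext e
        by_cases h : e ∈ M.E <;> simp [h]
      map_smul' := fun r c => by
        funext e
        by_cases h : e ∈ M.E <;> simp [h] }
  have hker : ∀ c ∈ LinearMap.ker Φ, ext0 c ∈ M.C := by
    intro c hc
    refine hW _ (fun e he => by simp [ext0, he]) fun v hv => ?_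
    have h1 := congrFun (LinearMap.mem_ker.1 hc) ⟨v, hv⟩
    have h2 : Φ c ⟨v, hv⟩ = ∑ e : M.E, c e * star v e := rfl
    rw [h2] at h1
    rw [← Finset.sum_coe_sort]
    simp only [Pi.zero_apply] at h1
    rw [← h1]
    refine Finset.sum_congr rfl fun e _ => ?_
    simp [ext0]
  have hinj : Function.Injective ext0 := by
    intro c d h
    funext e
    have := congrFun h e.1
    simpa [ext0] using this
  let Ψ : LinearMap.ker Φ →ₗ[ZMod 2] M.C :=
    LinearMap.codRestrict M.C (ext0.comp (LinearMap.ker Φ).subtype) (fun c => hker c.1 c.2)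
  have hΨ : Function.Injective Ψ := by
    intro c d h
    have h1 : (Ψ c : α → ZMod 2) = Ψ d := by rw [h]
    have h2 : ext0 c.1 = ext0 d.1 := h1
    exact Subtype.ext (hinj h2)
  have hfin : Module.finrank (ZMod 2) (LinearMap.ker Φ) ≤ Module.finrank (ZMod 2) M.C :=
    LinearMap.finrank_le_finrank_of_injective hΨ
  have hrn := LinearMap.finrank_range_add_finrank_ker Φ
  have hr : Module.finrank (ZMod 2) (LinearMap.range Φ) ≤ W.card := by
    have := Submodule.finrank_le (LinearMap.range Φ)
    simpa using this
  have hd : Module.finrank (ZMod 2) (M.E → ZMod 2) = M.E.card := by simp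
  omega

/-! ### The dual Fano matroid is not graphic -/

theorem fanoStar_line {k : ZMod 7 → ZMod 2} (hk : k ∈ fano.dual.C) (i : ZMod 7) :
    ∑ e, fanoLine i e * k e = 0 :=
  hk.2 _ (Submodule.subset_span ⟨i, rfl⟩)

theorem fano_aux1 : ∀ k : ZMod 7 → ZMod 2, (∀ i, ∑ e, fanoLine i e * k e = 0) →
    k 0 = 0 → k 1 = 0 → k 2 = 0 → k = 0 := by
  decide +kernel

theorem fano_aux2 : ∀ i j : ZMod 7, ∑ e, fanoLine j e * (1 - fanoLine i e) = 0 := by
  decide +kernel

theorem fano_aux3 : ∀ k : ZMod 7 → ZMod 2, (∀ i, ∑ e, (1 - fanoLine i e) * k e = 0) → k ≠ 0 →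
    3 ≤ (Finset.univ.filter (fun e => k e ≠ 0)).card := by
  decide +kernel

theorem fanoStar_compl (i : ZMod 7) : (fun e => 1 - fanoLine i e) ∈ fano.dual.C := by
  refine ⟨fun e he => absurd (Finset.mem_univ e) he, fun c hc => ?_⟩
  have hc' : c ∈ Submodule.span (ZMod 2) (Set.range fanoLine) := hc
  refine Submodule.span_induction (p := fun c _ => ∑ e ∈ fano.E, c e * (1 - fanoLine i e) = 0)
    ?_ ?_ ?_ ?_ hc'
  · rintro _ ⟨j, rfl⟩
    exact fano_aux2 i j
  · simp
  · intro x y _ _ hx hy
    simp only [Pi.add_apply, add_mul, Finset.sum_add_distrib, hx, hy, add_zero]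
  · intro a x _ hx
    simp only [Pi.smul_apply, smul_eq_mul, mul_assoc, ← Finset.mul_sum, hx, mul_zero]

theorem fanoStar_finrank : Module.finrank (ZMod 2) fano.dual.C ≤ 3 := by
  let f : fano.dual.C →ₗ[ZMod 2] (Fin 3 → ZMod 2) :=
    { toFun := fun c i => c.1 (i.1 : ZMod 7)
      map_add' := fun c d => rfl
      map_smul' := fun r c => rfl }
  have hf : Function.Injective f := by
    rw [injective_iff_map_eq_zero]
    intro c hc
    have h0 : c.1 0 = 0 := by simpa [f] using congrFun hc 0
    have h1 : c.1 1 = 0 := by simpa [f] using congrFun hc 1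
    have h2 : c.1 2 = 0 := by simpa [f] using congrFun hc 2
    exact Subtype.ext (fano_aux1 c.1 (fanoStar_line c.2) h0 h1 h2)
  have := LinearMap.finrank_le_finrank_of_injective hf
  simpa using this

theorem fanoStar_not_graphic : ¬ Graphic fano.dual := by
  intro h
  have h1 := h.finrank_ge 4 (by norm_num) (by decide) (fun k _ hk hk0 => ?_)
  · have h2 := fanoStar_finrank
    have h3 : fano.dual.E.card = 7 := by decide
    omega
  · exact fano_aux3 k (fun i => hk _ (fanoStar_compl i)) hk0

/-! ### The dual of the cycle matroid of `K_5` is not graphic -/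

/-- vertex stars are cocycles of the cycle matroid -/
theorem star_mem {V : Type} [Fintype V] [DecidableEq V] (G : SimpleGraph V)
    [DecidableRel G.Adj] (v : V) :
    (fun e => if e ∈ G.edgeFinset ∧ v ∈ e then (1 : ZMod 2) else 0) ∈ (cycleMatroid G).dual.C := by
  refine ⟨fun e he => ?_, fun c hc => ?_⟩
  · have he' : e ∉ G.edgeFinset := he
    simp [he']
  · have h1 := hc.2 v
    rw [Finset.sum_filter] at h1
    refine Eq.trans (Finset.sum_congr rfl fun e he => ?_) h1
    have he' : e ∈ G.edgeFinset := he
    by_cases hv : v ∈ e <;> simp [hv, he']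

theorem cocycle_card {V : Type} [Fintype V] [DecidableEq V] (G : SimpleGraph V)
    [DecidableRel G.Adj] (k : Sym2 V → ZMod 2) (hk : ∀ e, e ∉ G.edgeFinset → k e = 0)
    (hk' : ∀ c ∈ (cycleMatroid G).dual.C, ∑ e ∈ G.edgeFinset, c e * k e = 0) (hk0 : k ≠ 0) :
    3 ≤ (G.edgeFinset.filter (fun e => k e ≠ 0)).card := by
  obtain ⟨e, he⟩ := Function.ne_iff.1 hk0
  have heE : e ∈ G.edgeFinset := by
    by_contra h
    exact he (hk e h)
  -- another edge at each end
  have other : ∀ v ∈ e, ∃ e' ∈ G.edgeFinset, v ∈ e' ∧ e' ≠ e ∧ k e' ≠ 0 := by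
    intro v hv
    by_contra hcon
    push Not at hcon
    have h1 := hk' _ (star_mem G v)
    rw [Finset.sum_eq_single e] at h1
    · simp only [heE, hv, and_self, if_true, one_mul] at h1
      exact he h1
    · intro e' he' hne
      by_cases hv' : v ∈ e'
      · rw [hcon e' he' hv' hne, mul_zero]
      · simp [hv']
    · intro h
      exact absurd heE h
  induction e using Sym2.ind with
  | _ a b =>
    have hab : a ≠ b := by
      rw [SimpleGraph.mem_edgeFinset, SimpleGraph.mem_edgeSet] at heE
      exact heE.ne
    obtain ⟨e', he'E, hae', hne', hke'⟩ := other a (Sym2.mem_mk_left a b)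
    obtain ⟨e'', he''E, hbe'', hne'', hke''⟩ := other b (Sym2.mem_mk_right a b)
    have hne : e' ≠ e'' := by
      rintro rfl
      exact hne' ((Sym2.mem_and_mem_iff hab).1 ⟨hae', hbe''⟩)
    have hsub : ({s(a, b), e', e''} : Finset (Sym2 V)) ⊆
        G.edgeFinset.filter (fun e => k e ≠ 0) := by
      intro x hx
      simp only [Finset.mem_insert, Finset.mem_singleton] at hx
      rcases hx with rfl | rfl | rfl
      · exact Finset.mem_filter.2 ⟨heE, he⟩
      · exact Finset.mem_filter.2 ⟨he'E, hke'⟩
      · exact Finset.mem_filter.2 ⟨he''E, hke''⟩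
    refine le_trans ?_ (Finset.card_le_card hsub)
    rw [Finset.card_insert_of_notMem, Finset.card_insert_of_notMem, Finset.card_singleton]
    · simpa using hne
    · simp only [Finset.mem_insert, Finset.mem_singleton, not_or]
      exact ⟨Ne.symm hne', Ne.symm hne''⟩

/-- triangle -/
def tri (i j : Fin 5) : Sym2 (Fin 5) → ZMod 2 :=
  fun e => if e = s(0, i) ∨ e = s(0, j) ∨ e = s(i, j) then 1 else 0

theorem tri_aux : ∀ i j : Fin 5, i ≠ 0 → j ≠ 0 → i ≠ j →
    (∀ e, e ∉ (⊤ : SimpleGraph (Fin 5)).edgeFinset → tri i j e = 0) ∧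
    ∀ v : Fin 5, ∑ e ∈ (⊤ : SimpleGraph (Fin 5)).edgeFinset with v ∈ e, tri i j e = 0 := by
  decide +kernel

theorem tri_sum (i j : Fin 5) (hi : i ≠ 0) (hj : j ≠ 0) (hij : i ≠ j) (k : Sym2 (Fin 5) → ZMod 2) :
    ∑ e ∈ (⊤ : SimpleGraph (Fin 5)).edgeFinset, tri i j e * k e =
      k s(0, i) + k s(0, j) + k s(i, j) := by
  have h1 : ∀ e, tri i j e * k e = if e ∈ ({s(0, i), s(0, j), s(i, j)} : Finset (Sym2 (Fin 5)))
      then k e else 0 := by
    intro e
    simp only [tri, Finset.mem_insert, Finset.mem_singleton]
    split_ifs <;> simp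
  simp only [h1]
  rw [← Finset.sum_filter, Finset.filter_mem_eq_inter, Finset.inter_eq_right.2]
  · rw [Finset.sum_insert, Finset.sum_insert, Finset.sum_singleton, add_assoc]
    · simp only [Finset.mem_singleton, Sym2.eq_iff, not_or, not_and]
      exact ⟨fun h => absurd h.symm hi, fun h => absurd h.symm hj⟩
    · simp only [Finset.mem_insert, Finset.mem_singleton, Sym2.eq_iff]
      rintro ((⟨-, h⟩ | ⟨h, -⟩) | (⟨h, -⟩ | ⟨h, -⟩))
      · exact hij h
      · exact hj h.symm
      · exact hi h.symm
      · exact hj h.symm
  · intro e he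
    simp only [Finset.mem_insert, Finset.mem_singleton] at he
    rw [SimpleGraph.mem_edgeFinset]
    rcases he with rfl | rfl | rfl
    · simpa using Ne.symm hi
    · simpa using Ne.symm hj
    · simpa using hij

theorem K5Star_finrank :
    Module.finrank (ZMod 2) (cycleMatroid (⊤ : SimpleGraph (Fin 5))).dual.C ≤ 4 := by
  let f : (cycleMatroid (⊤ : SimpleGraph (Fin 5))).dual.C →ₗ[ZMod 2] (Fin 4 → ZMod 2) :=
    { toFun := fun c i => c.1 s(0, i.succ)
      map_add' := fun c d => rfl
      map_smul' := fun r c => rfl }
  have hf : Function.Injective f := by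
    rw [injective_iff_map_eq_zero]
    intro c hc
    have h0 : ∀ i : Fin 5, i ≠ 0 → c.1 s(0, i) = 0 := by
      intro i hi
      obtain ⟨j, rfl⟩ := Fin.exists_succ_eq.2 hi
      exact congrFun hc j
    apply Subtype.ext
    funext e
    by_cases he : e ∈ (⊤ : SimpleGraph (Fin 5)).edgeFinset
    · induction e using Sym2.ind with
      | _ a b =>
        have hab : a ≠ b := by simpa using he
        by_cases ha : a = 0
        · subst ha
          exact h0 b (Ne.symm hab)
        · by_cases hb : b = 0
          · subst hb
            rw [Sym2.eq_swap]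
            exact h0 a ha
          · have h1 := c.2.2 (tri a b) (tri_aux a b ha hb hab)
            have h2 := tri_sum a b ha hb hab c.1
            have h3 : c.1 s(0, a) + c.1 s(0, b) + c.1 s(a, b) = 0 := h2.symm.trans h1
            rw [h0 a ha, h0 b hb, zero_add, zero_add] at h3
            exact h3
    · exact c.2.1 e he
  have := LinearMap.finrank_le_finrank_of_injective hf
  simpa using this

theorem K5Star_not_graphic : ¬ Graphic (cycleMatroid (⊤ : SimpleGraph (Fin 5))).dual := by
  intro h
  have hcard : (cycleMatroid (⊤ : SimpleGraph (Fin 5))).dual.E.card = 10 := by decide +kernel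
  have h1 := h.finrank_ge 6 (by norm_num) (by rw [hcard]; norm_num)
    (fun k hk hk' hk0 => cocycle_card _ k hk hk' hk0)
  have h2 := K5Star_finrank
  omega

theorem petersen_card : (cycleMatroid petersenGraph).E.card = 15 := by
  decide +kernel

theorem exists_minimal : ∃ N : BinMatroid ℕ, IsMinor M0 N ∧ N.MinimalNonAlternating := by
  classical
  have hex : ∃ n, ∃ N : BinMatroid ℕ, IsMinor M0 N ∧ N.Bridgeless ∧ ¬ N.Alternating ∧
      N.E.card = n :=
    ⟨_, M0, IsMinor.refl, M0_bridgeless, M0_not_alternating, rfl⟩
  obtain ⟨N, h1, h2, h3, h4⟩ := Nat.find_spec hex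
  refine ⟨N, h1, h2, h3, fun N' hN' hlt hb => ?_⟩
  by_contra hcon
  have := Nat.find_min' hex ⟨N', IsMinor.trans h1 hN', hb, hcon, rfl⟩
  have h5 := Finset.card_lt_card hlt
  omega

/-- There is a minimal non-alternating bridgeless binary matroid which is isomorphic neither to
`F^*`, nor to the cycle matroid of the Petersen graph, nor to `K_5^*`. -/
theorem result : ∃ M : BinMatroid ℕ, M.MinimalNonAlternating ∧
    ¬ Iso M fano.dual ∧
    ¬ Iso M (cycleMatroid petersenGraph) ∧
    ¬ Iso M (cycleMatroid (⊤ : SimpleGraph (Fin 5))).dual := by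
  obtain ⟨N, hN, hmin⟩ := exists_minimal
  have hg : Graphic N := IsMinor.graphic hN M0_graphic
  refine ⟨N, hmin, fun h => fanoStar_not_graphic (hg.of_iso h), ?_,
    fun h => K5Star_not_graphic (hg.of_iso h)⟩
  rintro ⟨f, hf, -⟩
  have h1 : N.E.card ≤ 14 := by
    have := Finset.card_le_card (IsMinor.ground hN)
    simpa [M0] using this
  have h2 : (cycleMatroid petersenGraph).E = N.E.image f := by
    apply Finset.coe_injective
    rw [Finset.coe_image, hf.image_eq]
  have h3 := petersen_card
  rw [h2] at h3
  have h4 : (N.E.image f).card ≤ N.E.card := Finset.card_image_le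
  omega

end Pool.Agent.H15.Penrose.Bundled
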