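import Mathlib

set_option autoImplicit false

namespace Pool.Agent.H15.Penrose

open Polynomial

variable {α β : Type}

/-- A finite ground set `E` (inside an ambient type `α`) together with a family `C` of subsets of
`E`, its cycles.  Subsets are identified with their characteristic vectors `α → ZMod 2`. -/
structure BinMatroid (α : Type) where
  E : Finset α
  C : Set (α → ZMod 2)

/-- The intersection `c ∩ A`: keep the coordinates in `A`, replace the others by `0`. -/
def inter [DecidableEq α] (A : Finset α) (c : α → ZMod 2) : α → ZMod 2 :=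
  fun e => if e ∈ A then c e else 0

/-- The dimension of a linear subspace of `GF(2)^E`. -/
noncomputable def dim (S : Set (α → ZMod 2)) : ℕ :=
  Module.finrank (ZMod 2) (Submodule.span (ZMod 2) S)

namespace BinMatroid

/-- `M` is a binary matroid: `C` is a linear subspace of `GF(2)^E`. -/
def IsBinary (M : BinMatroid α) : Prop :=
  (0 : α → ZMod 2) ∈ M.C ∧ (∀ c ∈ M.C, ∀ d ∈ M.C, c + d ∈ M.C) ∧
    ∀ c ∈ M.C, ∀ e, e ∉ M.E → c e = 0

/-- The dual: its cycles are the cocycles of `M`, that is the subsets `k` of the ground set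
with `|c ∩ k|` even for all cycles `c`. -/
def dual (M : BinMatroid α) : BinMatroid α :=
  ⟨M.E, {k | (∀ e, e ∉ M.E → k e = 0) ∧ ∀ c ∈ M.C, ∑ e ∈ M.E, c e * k e = 0}⟩

/-- `M` is bridgeless: every element of the ground set lies in some cycle. -/
def Bridgeless (M : BinMatroid α) : Prop := ∀ e ∈ M.E, ∃ c ∈ M.C, c e ≠ 0

/-- The reduction `M|A`: the cycles of `M` contained in `A`. -/
def reduction (M : BinMatroid α) (A : Finset α) : BinMatroid α :=
  ⟨A, {c | c ∈ M.C ∧ ∀ e, e ∉ A → c e = 0}⟩

/-- The contraction `M·A`: the sets `d ∩ A`, for `d` a cycle of `M`. -/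
def contraction [DecidableEq α] (M : BinMatroid α) (A : Finset α) : BinMatroid α :=
  ⟨A, {c | ∃ d ∈ M.C, c = inter A d}⟩

/-- `IsMinor M N`: the matroid `N` is obtained from `M` by finitely many reductions and
contractions (to subsets of the current ground set). -/
inductive IsMinor [DecidableEq α] (M : BinMatroid α) : BinMatroid α → Prop
  | refl : IsMinor M M
  | red {N : BinMatroid α} {A : Finset α} :
      IsMinor M N → A ⊆ N.E → IsMinor M (N.reduction A)
  | contr {N : BinMatroid α} {A : Finset α} :
      IsMinor M N → A ⊆ N.E → IsMinor M (N.contraction A)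

/-- The bicycle space `B_M(A)`: the cycles `c` such that `c ∩ A` is a cocycle. -/
def bicycles [DecidableEq α] (M : BinMatroid α) (A : Finset α) : Set (α → ZMod 2) :=
  {c | c ∈ M.C ∧ inter A c ∈ M.dual.C}

/-- The Penrose polynomial `∑_{A ⊆ E} (-1)^|A| X^(dim B_M(A))`. -/
noncomputable def penrose [DecidableEq α] (M : BinMatroid α) : ℤ[X] :=
  ∑ A ∈ M.E.powerset, (-1 : ℤ[X]) ^ A.card * X ^ dim (M.bicycles A)

/-- The Penrose polynomial of `M` has alternating coefficients: with `r = dim C`, the number
`(-1)^(r-i) a_i` is positive for all `0 ≤ i ≤ r`. -/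
def Alternating [DecidableEq α] (M : BinMatroid α) : Prop :=
  ∀ i : ℕ, i ≤ dim M.C → 0 < (-1 : ℤ) ^ (dim M.C - i) * M.penrose.coeff i

/-- `M` is bridgeless, its Penrose polynomial is not alternating, and the Penrose polynomial of
every bridgeless minor of `M` on a smaller ground set is alternating. -/
def MinimalNonAlternating [DecidableEq α] (M : BinMatroid α) : Prop :=
  M.Bridgeless ∧ ¬ M.Alternating ∧
    ∀ N : BinMatroid α, IsMinor M N → N.E ⊂ M.E → N.Bridgeless → N.Alternating

/-- Isomorphism: a bijection `f` between the ground sets such that a subset `c` of the ground set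
of `N` is a cycle of `N` if and only if its preimage is a cycle of `M`. -/
def Iso [DecidableEq α] (M : BinMatroid α) (N : BinMatroid β) : Prop :=
  ∃ f : α → β, Set.BijOn f (M.E : Set α) (N.E : Set β) ∧
    ∀ c : β → ZMod 2, (∀ e, e ∉ N.E → c e = 0) → (c ∈ N.C ↔ inter M.E (c ∘ f) ∈ M.C)

end BinMatroid

/-- The characteristic vector of the line `{i, i+1, i+3}` of the Fano plane on `ZMod 7`. -/
def fanoLine (i : ZMod 7) : ZMod 7 → ZMod 2 :=
  fun p => if p = i ∨ p = i + 1 ∨ p = i + 3 then 1 else 0

/-- The Fano matroid `F`: the cycle space is spanned by the seven lines of the Fano plane. -/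
def fano : BinMatroid (ZMod 7) :=
  ⟨Finset.univ, {c | c ∈ Submodule.span (ZMod 2) (Set.range fanoLine)}⟩

/-- The cycle matroid of a finite simple graph: the ground set is the edge set, the cycles are
the edge sets of even subgraphs. -/
def cycleMatroid {V : Type} [Fintype V] [DecidableEq V] (G : SimpleGraph V)
    [DecidableRel G.Adj] : BinMatroid (Sym2 V) :=
  ⟨G.edgeFinset, {c | (∀ e, e ∉ G.edgeFinset → c e = 0) ∧
    ∀ v : V, ∑ e ∈ G.edgeFinset with v ∈ e, c e = 0}⟩

/-- The Petersen graph: the vertices are the `2`-subsets of a `5`-set, adjacent when disjoint. -/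
def petersenGraph : SimpleGraph {s : Finset (Fin 5) // s.card = 2} where
  Adj s t := Disjoint s.1 t.1
  symm := ⟨fun _ _ h => Disjoint.symm h⟩
  loopless := ⟨fun s h => by
    have h1 : s.1 = ∅ := by simpa using h
    have h2 := s.2
    rw [h1] at h2
    simp at h2⟩

instance : DecidableRel petersenGraph.Adj :=
  fun s t => inferInstanceAs (Decidable (Disjoint s.1 t.1))

end Pool.Agent.H15.Penrose
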