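import Pool.Agent.H15.Penrose.Defs
import Pool.Agent.H15.Penrose.Bundled

set_option autoImplicit false

namespace Pool.Agent.H15.Penrose

open Polynomial BinMatroid

variable {α β : Type}

/-- forget the bundling -/
def unb (M : Bundled.BinMatroid α) : BinMatroid α := ⟨M.E, {c | c ∈ M.C}⟩

theorem unb_isBinary (M : Bundled.BinMatroid α) : (unb M).IsBinary :=
  ⟨M.C.zero_mem, fun _ hc _ hd => M.C.add_mem hc hd, M.supp⟩

theorem unb_dual (M : Bundled.BinMatroid α) : (unb M).dual = unb M.dual := rfl

theorem unb_bridgeless (M : Bundled.BinMatroid α) : (unb M).Bridgeless ↔ M.Bridgeless := Iff.rfl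

theorem unb_reduction (M : Bundled.BinMatroid α) (A : Finset α) :
    (unb M).reduction A = unb (M.reduction A) := rfl

theorem inter_eq [DecidableEq α] (A : Finset α) (c : α → ZMod 2) :
    inter A c = Bundled.inter A c := rfl

theorem unb_contraction [DecidableEq α] (M : Bundled.BinMatroid α) (A : Finset α) :
    (unb M).contraction A = unb (M.contraction A) := by
  unfold unb BinMatroid.contraction
  congr 1
  ext c
  change (∃ d ∈ M.C, c = inter A d) ↔ c ∈ Submodule.map _ _
  rw [Submodule.mem_map]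
  constructor
  · rintro ⟨d, hd, rfl⟩
    exact ⟨d, hd, rfl⟩
  · rintro ⟨d, hd, rfl⟩
    exact ⟨d, hd, rfl⟩

theorem isMinor_unb [DecidableEq α] {M : Bundled.BinMatroid α} {N : BinMatroid α}
    (h : IsMinor (unb M) N) : ∃ N' : Bundled.BinMatroid α, M.IsMinor N' ∧ unb N' = N := by
  induction h with
  | refl => exact ⟨M, Bundled.BinMatroid.IsMinor.refl, rfl⟩
  | @red N A _ hA ih =>
    obtain ⟨N', hN', rfl⟩ := ih
    exact ⟨N'.reduction A, Bundled.BinMatroid.IsMinor.reduction hN' hA, (unb_reduction N' A).symm⟩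
  | @contr N A _ hA ih =>
    obtain ⟨N', hN', rfl⟩ := ih
    exact ⟨N'.contraction A, Bundled.BinMatroid.IsMinor.contraction hN' hA,
      (unb_contraction N' A).symm⟩

theorem dim_coe (S : Submodule (ZMod 2) (α → ZMod 2)) :
    dim {c | c ∈ S} = Module.finrank (ZMod 2) S := by
  have : Submodule.span (ZMod 2) {c | c ∈ S} = S := Submodule.span_eq S
  rw [dim, this]

theorem unb_bicycles [DecidableEq α] (M : Bundled.BinMatroid α) (A : Finset α) :
    (unb M).bicycles A = {c | c ∈ M.bicycles A} := rfl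

theorem unb_penrose [DecidableEq α] (M : Bundled.BinMatroid α) :
    (unb M).penrose = M.penrose := by
  unfold BinMatroid.penrose Bundled.BinMatroid.penrose
  refine Finset.sum_congr rfl fun A _ => ?_
  rw [unb_bicycles, dim_coe]

theorem unb_alternating [DecidableEq α] (M : Bundled.BinMatroid α) :
    (unb M).Alternating ↔ M.Alternating := by
  unfold BinMatroid.Alternating Bundled.BinMatroid.Alternating
  have : dim (unb M).C = Module.finrank (ZMod 2) M.C := dim_coe M.C
  rw [this, unb_penrose]

theorem unb_minimal [DecidableEq α] {M : Bundled.BinMatroid α} (h : M.MinimalNonAlternating) :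
    (unb M).MinimalNonAlternating := by
  obtain ⟨h1, h2, h3⟩ := h
  refine ⟨h1, fun h => h2 ((unb_alternating M).1 h), fun N hN hlt hb => ?_⟩
  obtain ⟨N', hN', rfl⟩ := isMinor_unb hN
  exact (unb_alternating N').2 (h3 N' hN' hlt hb)

theorem main : ∃ M : BinMatroid ℕ, M.IsBinary ∧ M.MinimalNonAlternating ∧
    ¬ M.Iso fano.dual ∧
    ¬ M.Iso (cycleMatroid petersenGraph) ∧
    ¬ M.Iso (cycleMatroid (⊤ : SimpleGraph (Fin 5))).dual := by
  obtain ⟨M, h1, h2, h3, h4⟩ := Bundled.result
  exact ⟨unb M, unb_isBinary M, unb_minimal h1, h2, h3, h4⟩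

end Pool.Agent.H15.Penrose
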